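import Pool.Agent.H24.RD.Targets

/-! KT of the board rem_modules: roots of elements of the group in cyclotomic fields. -/

set_option autoImplicit false

namespace Pool.Agent.H31.RD

open Pool.Agent.H24.RD NumberField Finset

/-- Two automorphisms commute on the field generated by the `N`-th roots of unity. -/
theorem kt_comm (F Ω : Type) [Field F] [Field Ω] [CharZero Ω] [Algebra F Ω]
    [IsAlgClosed Ω] (N : ℕ) (hN : 0 < N) (σ τ : Ω ≃ₐ[F] Ω) (y : Ω)
    (hy : y ∈ IntermediateField.adjoin F {z : Ω | z ^ N = 1}) : σ (τ y) = τ (σ y) := by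
  have : NeZero N := ⟨hN.ne'⟩
  obtain ⟨ζ, hζ⟩ := HasEnoughRootsOfUnity.exists_primitiveRoot Ω N
  have hpow : ∀ f : Ω ≃ₐ[F] Ω, ∃ i : ℕ, f ζ = ζ ^ i := by
    intro f
    have h1 : (f ζ) ^ N = 1 := by rw [← map_pow, hζ.pow_eq_one, map_one]
    obtain ⟨i, -, hi⟩ := hζ.eq_pow_of_pow_eq_one h1
    exact ⟨i, hi.symm⟩
  obtain ⟨a, ha⟩ := hpow σ
  obtain ⟨b, hb⟩ := hpow τ
  have hgen : ∀ z : Ω, z ^ N = 1 → σ (τ z) = τ (σ z) := by
    intro z hz
    obtain ⟨j, -, rfl⟩ := hζ.eq_pow_of_pow_eq_one hz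
    simp only [map_pow, ha, hb, ← pow_mul]
    congr 1
    ring
  set ρ : Ω ≃ₐ[F] Ω := (τ * σ)⁻¹ * (σ * τ) with hρ
  have hρz : ∀ z : Ω, σ (τ z) = τ (σ z) ↔ ρ z = z := by
    intro z
    constructor
    · intro h
      have h1 : (σ * τ) z = (τ * σ) z := h
      rw [hρ, AlgEquiv.mul_apply, h1, ← AlgEquiv.mul_apply, inv_mul_cancel]
      rfl
    · intro h
      have h1 := congrArg (τ * σ) h
      rw [hρ, ← AlgEquiv.mul_apply, ← mul_assoc, mul_inv_cancel, one_mul] at h1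
      exact h1
  have hle : IntermediateField.adjoin F {z : Ω | z ^ N = 1} ≤
      IntermediateField.fixedField (Subgroup.zpowers ρ) := by
    rw [IntermediateField.adjoin_le_iff]
    intro z hz
    have h2 : ρ z = z := (hρz z).1 (hgen z hz)
    intro ⟨g, hg⟩
    obtain ⟨k, rfl⟩ := Subgroup.mem_zpowers_iff.1 hg
    have hst : ρ ∈ MulAction.stabilizer (Ω ≃ₐ[F] Ω) z := h2
    exact (MulAction.stabilizer (Ω ≃ₐ[F] Ω) z).zpow_mem hst k
  exact (hρz y).2 (hle hy ⟨ρ, Subgroup.mem_zpowers ρ⟩)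

theorem pf_KT : T_SAT → T_CT → T_KT := by
  intro hSAT hCT F Ω _ _ _ _ _ _ p hp r γ hγ
  have : CharZero Ω := charZero_of_injective_algebraMap (algebraMap F Ω).injective
  have : IsAlgClosure F Ω := ⟨inferInstance, inferInstance⟩
  have : IsGalois F Ω := IsAlgClosure.isGalois F Ω
  obtain ⟨e, he, hsat⟩ := hSAT F r γ hγ
  obtain ⟨c0, hct⟩ := hCT F Ω p hp
  obtain ⟨b, w', hw', heb⟩ := Nat.exists_eq_pow_mul_and_not_dvd he.ne' p hp.ne_one
  refine ⟨c0 + b, ?_⟩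
  intro n m N' hmn hN x y hy hyx i
  have hN0 : 0 < N' := by
    rcases Nat.eq_zero_or_pos N' with h | h
    · exact absurd (h ▸ dvd_zero p) hN
    · exact h
  obtain ⟨τ, u, hu1, hu2, hτ1, hτ2⟩ := hct n N' hN
  have hpm : 0 < p ^ m := pow_pos hp.pos m
  have hMpos : 0 < p ^ n * N' := Nat.mul_pos (pow_pos hp.pos n) hN0
  set G : F := ∏ i, γ i ^ x i with hG
  have hG0 : G ≠ 0 := Finset.prod_ne_zero_iff.2 fun i _ => zpow_ne_zero _ (hγ.1 i)
  have hyG : y ^ (p ^ m) = algebraMap F Ω G := by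
    rw [hyx, hG, map_prod]
    exact Finset.prod_congr rfl fun i _ => (map_zpow₀ _ _ _).symm
  have hy0 : y ≠ 0 := by
    intro h
    rw [h, zero_pow hpm.ne'] at hyG
    exact hG0 ((map_eq_zero (algebraMap F Ω)).1 hyG.symm)
  set z0 : Ω := y ^ u / τ y with hz0
  have hτy : τ y ≠ 0 := (map_ne_zero τ).2 hy0
  have hfix : ∀ σ : Ω ≃ₐ[F] Ω, σ z0 = z0 := by
    intro σ
    set χ : Ω := σ y / y with hχ
    have hσy : σ y = χ * y := by rw [hχ, div_mul_cancel₀ _ hy0]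
    have hχ0 : χ ≠ 0 := div_ne_zero ((map_ne_zero σ).2 hy0) hy0
    have hχ1 : χ ^ (p ^ m) = 1 := by
      rw [hχ, div_pow, ← map_pow, hyG, AlgEquiv.commutes]
      exact div_self ((map_ne_zero (algebraMap F Ω)).2 hG0)
    have hχ2 : χ ^ (p ^ n) = 1 := by
      rw [← Nat.add_sub_of_le hmn, pow_add, pow_mul, hχ1, one_pow]
    rw [hz0, map_div₀, map_pow, kt_comm F Ω (p ^ n * N') hMpos σ τ y hy, hσy, map_mul, hτ1 χ hχ2,
      mul_pow]
    exact mul_div_mul_left _ _ (pow_ne_zero _ hχ0)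
  obtain ⟨z, hz⟩ := (InfiniteGalois.mem_range_algebraMap_iff_fixed z0).2 hfix
  have hzpow : z ^ (p ^ m) = ∏ i, γ i ^ (((u - 1 : ℕ) : ℤ) * x i) := by
    apply (algebraMap F Ω).injective
    have h1 : z0 ^ (p ^ m) = (algebraMap F Ω G) ^ (u - 1) := by
      rw [hz0, div_pow, ← pow_mul, mul_comm u, pow_mul, hyG, ← map_pow τ, hyG, AlgEquiv.commutes]
      have h2 : algebraMap F Ω G ≠ 0 := (map_ne_zero (algebraMap F Ω)).2 hG0
      rw [div_eq_iff h2, ← pow_succ]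
      congr 1
      omega
    rw [map_pow, hz, h1, ← map_pow]
    congr 1
    rw [hG, ← Finset.prod_pow]
    refine Finset.prod_congr rfl fun i _ => ?_
    rw [← zpow_natCast, ← zpow_mul, mul_comm]
  have hdvd := hsat z (p ^ m) (fun i => ((u - 1 : ℕ) : ℤ) * x i) hpm hzpow i
  have hu0 : u - 1 ≠ 0 := by
    intro h
    exact hu2 (h ▸ dvd_zero _)
  obtain ⟨a, w, hw, hua⟩ := Nat.exists_eq_pow_mul_and_not_dvd hu0 p hp.ne_one
  have hac : a ≤ c0 := by
    by_contra h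
    apply hu2
    rw [hua]
    exact Dvd.dvd.mul_right (pow_dvd_pow p (by omega)) w
  have hcop : IsCoprime ((p ^ m : ℕ) : ℤ) ((w' * w : ℕ) : ℤ) := by
    rw [Nat.isCoprime_iff_coprime]
    apply Nat.Coprime.pow_left
    rw [Nat.Prime.coprime_iff_not_dvd hp]
    intro h
    rcases (Nat.Prime.dvd_mul hp).1 h with h | h
    · exact hw' h
    · exact hw h
  have h3 : ((p ^ m : ℕ) : ℤ) ∣ ((p ^ (a + b) : ℕ) : ℤ) * x i := by
    apply hcop.dvd_of_dvd_mul_left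
    have h4 : (e : ℤ) * (((u - 1 : ℕ) : ℤ) * x i) =
        ((w' * w : ℕ) : ℤ) * (((p ^ (a + b) : ℕ) : ℤ) * x i) := by
      rw [hua, heb]
      push_cast
      ring
    rw [← h4]
    exact hdvd
  refine h3.trans (mul_dvd_mul_right ?_ (x i))
  exact_mod_cast pow_dvd_pow p (by omega)

end Pool.Agent.H31.RD
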