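import Pool.Agent.H24.RD.Targets

/-! CT of the board rem_modules: a cyclotomic automorphism which is far from the identity. -/

set_option autoImplicit false

namespace Pool.Agent.H31.RD

open Pool.Agent.H24.RD NumberField Finset

/-- Some automorphism over `F` fixes the `N'`-th roots of unity and moves the `p ^ (d + 1)`-th ones,
where `d` is the degree of `F`. -/
theorem ct_exists (F Ω : Type) [Field F] [NumberField F] [Field Ω] [CharZero Ω] [Algebra F Ω]
    [IsAlgClosed Ω] [Algebra.IsAlgebraic F Ω] (p : ℕ) (hp : p.Prime) (N' : ℕ) (hN : ¬ p ∣ N')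
    (ξ ζ : Ω) (hξ : IsPrimitiveRoot ξ N') (hζ : IsPrimitiveRoot ζ (p ^ (Module.finrank ℚ F + 1))) :
    ∃ τ : Ω ≃ₐ[F] Ω, τ ξ = ξ ∧ τ ζ ≠ ζ := by
  by_contra hcon
  push Not at hcon
  set d := Module.finrank ℚ F with hd
  have hN0 : 0 < N' := by
    rcases Nat.eq_zero_or_pos N' with h | h
    · exact absurd (h ▸ dvd_zero p) hN
    · exact h
  have : IsAlgClosure F Ω := ⟨inferInstance, inferInstance⟩
  have : IsGalois F Ω := IsAlgClosure.isGalois F Ω
  set K : IntermediateField F Ω := IntermediateField.adjoin F {ξ} with hK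
  have hξK : ξ ∈ K := IntermediateField.mem_adjoin_simple_self F ξ
  have hζK : ζ ∈ K := by
    rw [← InfiniteGalois.fixedField_fixingSubgroup K]
    intro ⟨s, hs⟩
    have hs1 : s ξ = ξ := (IntermediateField.mem_fixingSubgroup_iff K s).1 hs ξ hξK
    exact hcon s hs1
  have hξint : IsIntegral F ξ := hξ.isIntegral hN0 |>.tower_top
  have : FiniteDimensional F K := IntermediateField.adjoin.finiteDimensional hξint
  have h1 : Module.finrank F K ≤ N'.totient := by
    rw [hK, IntermediateField.adjoin.finrank hξint]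
    have hdvd : minpoly F ξ ∣ Polynomial.cyclotomic N' F := by
      apply minpoly.dvd
      rw [Polynomial.aeval_def, Polynomial.eval₂_eq_eval_map, Polynomial.map_cyclotomic]
      exact hξ.isRoot_cyclotomic hN0
    have h2 := Polynomial.natDegree_le_of_dvd hdvd (Polynomial.cyclotomic_ne_zero N' F)
    rwa [Polynomial.natDegree_cyclotomic] at h2
  have : FiniteDimensional ℚ K := FiniteDimensional.trans ℚ F K
  have h2 : Module.finrank ℚ K = d * Module.finrank F K := by
    rw [hd, Module.finrank_mul_finrank]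
  have hcop : Nat.Coprime (p ^ (d + 1)) N' :=
    Nat.Coprime.pow_left _ ((Nat.Prime.coprime_iff_not_dvd hp).2 hN)
  have hω : IsPrimitiveRoot (⟨ζ * ξ, K.mul_mem hζK hξK⟩ : K) (p ^ (d + 1) * N') := by
    refine IsPrimitiveRoot.of_map_of_injective (f := algebraMap K Ω) ?_ (algebraMap K Ω).injective
    have h3 : orderOf (ζ * ξ) = orderOf ζ * orderOf ξ := by
      apply (Commute.all ζ ξ).orderOf_mul_eq_mul_orderOf_of_coprime
      rw [← hζ.eq_orderOf, ← hξ.eq_orderOf]
      exact hcop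
    rw [← hζ.eq_orderOf, ← hξ.eq_orderOf] at h3
    have := IsPrimitiveRoot.orderOf (ζ * ξ)
    rwa [h3] at this
  have hpos : 0 < p ^ (d + 1) * N' := Nat.mul_pos (pow_pos hp.pos _) hN0
  have h4 : (p ^ (d + 1) * N').totient ≤ Module.finrank ℚ K := by
    have h5 := minpoly.natDegree_le (A := ℚ) (⟨ζ * ξ, K.mul_mem hζK hξK⟩ : K)
    rw [← Polynomial.cyclotomic_eq_minpoly_rat hω hpos, Polynomial.natDegree_cyclotomic] at h5
    exact h5
  rw [Nat.totient_mul hcop, Nat.totient_prime_pow_succ hp, h2] at h4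
  have h6 : d < p ^ d * (p - 1) := by
    have h7 : d < p ^ d := Nat.lt_pow_self hp.one_lt
    have h8 : 1 ≤ p - 1 := by have := hp.two_le; omega
    calc d < p ^ d := h7
      _ = p ^ d * 1 := (mul_one _).symm
      _ ≤ p ^ d * (p - 1) := Nat.mul_le_mul_left _ h8
  have h9 : 0 < N'.totient := Nat.totient_pos.2 hN0
  have h10 : d * Module.finrank F K ≤ d * N'.totient := Nat.mul_le_mul_left _ h1
  have h11 : d * N'.totient < p ^ d * (p - 1) * N'.totient := Nat.mul_lt_mul_of_pos_right h6 h9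
  omega

theorem pf_CT : T_CT := by
  intro F Ω _ _ _ _ _ _ p hp
  have : CharZero Ω := charZero_of_injective_algebraMap (algebraMap F Ω).injective
  set d := Module.finrank ℚ F with hd
  refine ⟨d, ?_⟩
  intro n N' hN
  have hN0 : 0 < N' := by
    rcases Nat.eq_zero_or_pos N' with h | h
    · exact absurd (h ▸ dvd_zero p) hN
    · exact h
  rcases Nat.lt_or_ge d n with hn | hn
  swap
  · refine ⟨AlgEquiv.refl, 1 + p ^ n, by omega, ?_, ?_, fun z _ => rfl⟩
    · rw [Nat.add_sub_cancel_left, Nat.pow_dvd_pow_iff_le_right hp.one_lt]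
      omega
    · intro z hz
      rw [pow_add, hz, pow_one, mul_one]
      rfl
  have : NeZero N' := ⟨hN0.ne'⟩
  have : NeZero (p ^ n) := ⟨(pow_pos hp.pos n).ne'⟩
  obtain ⟨ζ, hζ⟩ := HasEnoughRootsOfUnity.exists_primitiveRoot Ω (p ^ n)
  obtain ⟨ξ, hξ⟩ := HasEnoughRootsOfUnity.exists_primitiveRoot Ω N'
  have hsplit : p ^ n = p ^ (n - (d + 1)) * p ^ (d + 1) := by
    rw [← pow_add]
    congr 1
    omega
  have hζ' : IsPrimitiveRoot (ζ ^ (p ^ (n - (d + 1)))) (p ^ (d + 1)) :=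
    hζ.pow (pow_pos hp.pos n) hsplit
  obtain ⟨τ, hτ1, hτ2⟩ := ct_exists F Ω p hp N' hN ξ _ hξ hζ'
  have hτζ : (τ ζ) ^ (p ^ n) = 1 := by
    rw [← map_pow, hζ.pow_eq_one, map_one]
  obtain ⟨i, -, hi⟩ := hζ.eq_pow_of_pow_eq_one hτζ
  have hu : τ ζ = ζ ^ (i + p ^ n) := by
    rw [pow_add, hζ.pow_eq_one, mul_one, hi]
  have hpn : 0 < p ^ n := pow_pos hp.pos n
  refine ⟨τ, i + p ^ n, by omega, ?_, ?_, ?_⟩
  · rintro ⟨w, hw⟩
    apply hτ2
    have hu' : i + p ^ n = p ^ (d + 1) * w + 1 := by omega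
    rw [map_pow, hu, ← pow_mul, mul_comm, pow_mul, hu', pow_add, pow_mul, hζ'.pow_eq_one, one_pow,
      one_mul, pow_one]
  · intro z hz
    obtain ⟨j, -, rfl⟩ := hζ.eq_pow_of_pow_eq_one hz
    rw [map_pow, hu, ← pow_mul, ← pow_mul, mul_comm]
  · intro z hz
    obtain ⟨j, -, rfl⟩ := hξ.eq_pow_of_pow_eq_one hz
    rw [map_pow, hτ1]

end Pool.Agent.H31.RD
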