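import Pool.Agent.H24.RD.Targets

/-! KM of the board rem_modules: upper bound of the mass of the automorphisms which move
`p ^ k`-th roots. -/

set_option autoImplicit false

namespace Pool.Agent.H31.RD.KM

open Pool.Agent.H24.RD NumberField Finset

variable {F M : Type} [Field F] [NumberField F] [Field M] [NumberField M] [Algebra F M]

/-- the elements with `N`-th power in `F` -/
def Cl (F : Type) {M : Type} [Field F] [Field M] [Algebra F M] (N : ℕ) (y : M) : Prop :=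
  y ≠ 0 ∧ ∃ g : F, y ^ N = algebraMap F M g

open Classical in
/-- the discrete logarithm -/
noncomputable def L (N : ℕ) (ζ ξ : M) : ZMod N :=
  if h : ∃ i : ℕ, ζ ^ i = ξ then ((Classical.choose h : ℕ) : ZMod N) else 0

theorem L_pow {N : ℕ} {ζ : M} (hζ : IsPrimitiveRoot ζ N) (hN : 0 < N) (i : ℕ) :
    L N ζ (ζ ^ i) = (i : ZMod N) := by
  have h : ∃ j : ℕ, ζ ^ j = ζ ^ i := ⟨i, rfl⟩
  have hζ0 : ζ ≠ 0 := hζ.ne_zero hN.ne'
  unfold L
  rw [dif_pos h]
  have hj := Classical.choose_spec h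
  set j := Classical.choose h
  have key : ∀ a b : ℕ, a ≤ b → ζ ^ a = ζ ^ b → (a : ZMod N) = (b : ZMod N) := by
    intro a b hab he
    have h1 : ζ ^ (b - a) = 1 := by
      have h2 : ζ ^ b = ζ ^ a * ζ ^ (b - a) := by
        rw [← pow_add]
        congr 1
        omega
      rw [h2] at he
      have h3 : ζ ^ a * ζ ^ (b - a) = ζ ^ a * 1 := by
        rw [mul_one]
        exact he.symm
      exact mul_left_cancel₀ (pow_ne_zero _ hζ0) h3
    have h4 := hζ.dvd_of_pow_eq_one _ h1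
    rw [ZMod.natCast_eq_natCast_iff]
    exact (Nat.modEq_iff_dvd' hab).2 h4
  rcases le_total j i with h1 | h1
  · exact key j i h1 hj
  · exact (key i j h1 hj.symm).symm

variable {N : ℕ} {ζ : M}

theorem exists_pow (hζ : IsPrimitiveRoot ζ N) (hN : 0 < N) {y : M} (hy : Cl F N y)
    (t : M ≃ₐ[F] M) : ∃ i : ℕ, t y = y * ζ ^ i := by
  obtain ⟨h0, g, hg⟩ := hy
  have h1 : (t y / y) ^ N = 1 := by
    rw [div_pow, ← map_pow, hg, AlgEquiv.commutes, div_self]
    rw [← hg]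
    exact pow_ne_zero _ h0
  haveI : NeZero N := ⟨hN.ne'⟩
  obtain ⟨i, -, hi⟩ := hζ.eq_pow_of_pow_eq_one h1
  refine ⟨i, ?_⟩
  rw [hi]
  field_simp

/-- the exponent -/
noncomputable def ph (N : ℕ) (ζ : M) (t : M ≃ₐ[F] M) (y : M) : ZMod N := L N ζ (t y / y)

theorem ph_eq (hζ : IsPrimitiveRoot ζ N) (hN : 0 < N) {y : M} (hy : y ≠ 0)
    {t : M ≃ₐ[F] M} {i : ℕ} (h : t y = y * ζ ^ i) : ph N ζ t y = (i : ZMod N) := by
  unfold ph
  rw [h, mul_div_cancel_left₀ _ hy]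
  exact L_pow hζ hN i

theorem pow_val (hζ : IsPrimitiveRoot ζ N) (i : ℕ) : ζ ^ ((i : ZMod N)).val = ζ ^ i := by
  rw [ZMod.val_natCast]
  conv_rhs => rw [← Nat.mod_add_div i N, pow_add, pow_mul, hζ.pow_eq_one, one_pow, mul_one]

theorem ph_spec (hζ : IsPrimitiveRoot ζ N) (hN : 0 < N) {y : M} (hy : Cl F N y)
    (t : M ≃ₐ[F] M) : t y = y * ζ ^ (ph N ζ t y).val := by
  obtain ⟨i, hi⟩ := exists_pow hζ hN hy t
  rw [ph_eq hζ hN hy.1 hi, pow_val hζ, hi]

theorem ph_zero (hζ : IsPrimitiveRoot ζ N) (hN : 0 < N) {y : M} (hy : Cl F N y)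
    (t : M ≃ₐ[F] M) : ph N ζ t y = 0 ↔ t y = y := by
  constructor
  · intro h
    rw [ph_spec hζ hN hy t, h, ZMod.val_zero, pow_zero, mul_one]
  · intro h
    have h1 : t y = y * ζ ^ 0 := by rw [pow_zero, mul_one, h]
    rw [ph_eq hζ hN hy.1 h1, Nat.cast_zero]

theorem Cl.mul {y y' : M} (hy : Cl F N y) (hy' : Cl F N y') : Cl F N (y * y') := by
  obtain ⟨h0, g, hg⟩ := hy
  obtain ⟨h0', g', hg'⟩ := hy'
  exact ⟨mul_ne_zero h0 h0', g * g', by rw [mul_pow, hg, hg', map_mul]⟩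

theorem Cl.one : Cl F N (1 : M) := ⟨one_ne_zero, 1, by rw [one_pow, map_one]⟩

theorem Cl.pow {y : M} (hy : Cl F N y) (n : ℕ) : Cl F N (y ^ n) := by
  induction n with
  | zero => rw [pow_zero]; exact Cl.one
  | succ n ih => rw [pow_succ]; exact ih.mul hy

theorem ph_mul (hζ : IsPrimitiveRoot ζ N) (hN : 0 < N) {y y' : M} (hy : Cl F N y)
    (hy' : Cl F N y') (t : M ≃ₐ[F] M) : ph N ζ t (y * y') = ph N ζ t y + ph N ζ t y' := by
  obtain ⟨i, hi⟩ := exists_pow hζ hN hy t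
  obtain ⟨i', hi'⟩ := exists_pow hζ hN hy' t
  rw [ph_eq hζ hN hy.1 hi, ph_eq hζ hN hy'.1 hi', ← Nat.cast_add]
  refine ph_eq hζ hN (mul_ne_zero hy.1 hy'.1) ?_
  rw [map_mul, hi, hi', pow_add]
  ring

theorem ph_one (hζ : IsPrimitiveRoot ζ N) (hN : 0 < N) (t : M ≃ₐ[F] M) :
    ph N ζ t (1 : M) = 0 :=
  (ph_zero hζ hN Cl.one t).2 (map_one t)

theorem ph_pow (hζ : IsPrimitiveRoot ζ N) (hN : 0 < N) {y : M} (hy : Cl F N y)
    (t : M ≃ₐ[F] M) (n : ℕ) : ph N ζ t (y ^ n) = n * ph N ζ t y := by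
  induction n with
  | zero => rw [pow_zero, ph_one hζ hN, Nat.cast_zero, zero_mul]
  | succ n ih =>
    rw [pow_succ, ph_mul hζ hN (hy.pow n) hy, ih]
    push_cast
    ring

theorem Cl.prod {ι : Type} (s : Finset ι) (f : ι → M) (h : ∀ i, Cl F N (f i)) :
    Cl F N (∏ i ∈ s, f i) := by
  classical
  induction s using Finset.induction_on with
  | empty => rw [Finset.prod_empty]; exact Cl.one
  | insert a s ha ih => rw [Finset.prod_insert ha]; exact (h a).mul ih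

theorem ph_prod (hζ : IsPrimitiveRoot ζ N) (hN : 0 < N) {ι : Type} (s : Finset ι) (f : ι → M)
    (h : ∀ i, Cl F N (f i)) (t : M ≃ₐ[F] M) :
    ph N ζ t (∏ i ∈ s, f i) = ∑ i ∈ s, ph N ζ t (f i) := by
  classical
  induction s using Finset.induction_on with
  | empty => rw [Finset.prod_empty, Finset.sum_empty]; exact ph_one hζ hN t
  | insert a s ha ih =>
    rw [Finset.prod_insert ha, Finset.sum_insert ha, ph_mul hζ hN (h a) (Cl.prod s f h), ih]

open Classical in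
/-- the bound for a set of values of the exponent -/
theorem class_bd [FiniteDimensional F M] (hVB : T_VB) (hCO : T_CO) {p : ℕ} (hp : p.Prime)
    (v : FinitePlace M) (hv : v.1 (p : M) < 1) {x0 : M} (hx0 : IsGen F M v.1 x0)
    (hζ : IsPrimitiveRoot ζ N) (hN : 0 < N) [NeZero N] {y : M} (hy : Cl F N y) (hvy : v.1 y ≤ 1)
    (S : Finset (ZMod N)) (hS : (0 : ZMod N) ∉ S) :
    ∑ t ∈ univ.filter (fun t : M ≃ₐ[F] M => ph N ζ t y ∈ S), wv v.1 p (t x0 - x0) ≤
      ∑ b ∈ S, (wv v.1 p y + wv v.1 p (ζ ^ b.val - 1)) := by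
  obtain ⟨-, hv0, hvint, -, -, -, -⟩ := hVB M p hp v hv
  have hlog : Real.log (v.1 (p : M)) < 0 := Real.log_neg hv0 hv
  have e1 : ∑ t ∈ univ.filter (fun t : M ≃ₐ[F] M => ph N ζ t y ∈ S), wv v.1 p (t x0 - x0) =
      ∑ b ∈ S, ∑ t ∈ univ.filter (fun t : M ≃ₐ[F] M => ph N ζ t y = b), wv v.1 p (t x0 - x0) := by
    rw [← Finset.sum_fiberwise_of_maps_to (s := univ.filter (fun t : M ≃ₐ[F] M => ph N ζ t y ∈ S))
      (t := S) (g := fun t => ph N ζ t y) (fun t ht => (Finset.mem_filter.1 ht).2)]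
    refine Finset.sum_congr rfl fun b hb => ?_
    rw [Finset.filter_filter]
    refine Finset.sum_congr ?_ fun _ _ => rfl
    ext t
    simp only [Finset.mem_filter, Finset.mem_univ, true_and]
    constructor
    · exact fun h => h.2
    · exact fun h => ⟨h ▸ hb, h⟩
  rw [e1]
  refine Finset.sum_le_sum fun b hb => ?_
  have hb0 : b ≠ 0 := fun h => hS (h ▸ hb)
  have hζi : IsIntegral ℤ ζ := hζ.isIntegral hN
  have hwy : 0 ≤ wv v.1 p y := by
    unfold wv
    exact div_nonneg_of_nonpos (Real.log_nonpos (v.1.nonneg y) hvy) hlog.le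
  have hwz : 0 ≤ wv v.1 p (ζ ^ b.val - 1) := by
    unfold wv
    exact div_nonneg_of_nonpos (Real.log_nonpos (v.1.nonneg _)
      (hvint _ ((hζi.pow _).sub isIntegral_one))) hlog.le
  by_cases hex : ∃ s : M ≃ₐ[F] M, ph N ζ s y = b
  · obtain ⟨s, hs⟩ := hex
    obtain ⟨hy0, g, hg⟩ := hy
    have hy' : Cl F N y := ⟨hy0, g, hg⟩
    have hsy : s y = y * ζ ^ b.val := by
      rw [← hs]
      exact ph_spec hζ hN hy' s
    have hsne : s y ≠ y := fun h => hb0 (hs.symm.trans ((ph_zero hζ hN hy' s).2 h))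
    have h1 := hCO F M p hp v hv x0 hx0 N y g hN hy0 hg hvy s hsne
    have h2 : wv v.1 p (s y - y) = wv v.1 p y + wv v.1 p (ζ ^ b.val - 1) := by
      have h3 : s y - y = y * (ζ ^ b.val - 1) := by
        rw [hsy]
        ring
      have h4 : ζ ^ b.val - 1 ≠ 0 := by
        intro h5
        apply hsne
        rw [hsy, sub_eq_zero.1 h5, mul_one]
      unfold wv
      rw [h3, map_mul, Real.log_mul ((AbsoluteValue.ne_zero_iff _).2 hy0)
        ((AbsoluteValue.ne_zero_iff _).2 h4), add_div]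
    rw [h2] at h1
    refine le_trans (le_of_eq ?_) h1
    refine Finset.sum_congr ?_ fun _ _ => rfl
    ext t
    simp only [Finset.mem_filter, Finset.mem_univ, true_and]
    constructor
    · intro ht
      rw [ph_spec hζ hN hy' t, ht, hsy]
    · intro ht
      rw [← hs]
      unfold ph
      rw [ht]
  · have h0 : univ.filter (fun t : M ≃ₐ[F] M => ph N ζ t y = b) = ∅ := by
      rw [Finset.filter_eq_empty_iff]
      intro t _ ht
      exact hex ⟨t, ht⟩
    rw [h0, Finset.sum_empty]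
    exact add_nonneg hwy hwz

open Classical in
theorem pf_KM : T_VB → T_CO → T_AV → T_KM := by
  intro hVB hCO hAV F M _ _ _ _ _ _ p hp v hv x0 hx0 k ζ hζ s η hη hvη η0 hη0 hη0F hvη0
  obtain ⟨-, hv0, hvint, -, -, -, hvsum⟩ := hVB M p hp v hv
  have hlog : Real.log (v.1 (p : M)) < 0 := Real.log_neg hv0 hv
  have hN : 0 < p ^ k := pow_pos hp.pos k
  haveI : NeZero (p ^ k) := ⟨hN.ne'⟩
  have hζ0 : ζ ≠ 0 := hζ.ne_zero hN.ne'
  have hvζ : v.1 ζ = 1 := by
    have h1 : v.1 ζ ^ (p ^ k) = 1 := by rw [← map_pow, hζ.pow_eq_one, map_one]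
    exact (pow_eq_one_iff_of_nonneg (v.1.nonneg ζ) hN.ne').1 h1
  have hClζ : Cl F (p ^ k) ζ := ⟨hζ0, 1, by rw [hζ.pow_eq_one, map_one]⟩
  have hClη : ∀ i, Cl F (p ^ k) (η i) := fun i => ⟨fun h => by
    have := hvη i
    rw [h, map_zero] at this
    exact zero_ne_one this, hη i⟩
  have hClη0 : Cl F (p ^ k) η0 := ⟨hη0, hη0F⟩
  -- the system
  set θ : Fin (s + 1) → M := Fin.cons ζ η with hθ
  have hClθ : ∀ i, Cl F (p ^ k) (θ i) := by
    intro i
    refine Fin.cases ?_ (fun j => ?_) i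
    · rw [hθ, Fin.cons_zero]; exact hClζ
    · rw [hθ, Fin.cons_succ]; exact hClη j
  have hvθ : ∀ i, v.1 (θ i) = 1 := by
    intro i
    refine Fin.cases ?_ (fun j => ?_) i
    · rw [hθ, Fin.cons_zero]; exact hvζ
    · rw [hθ, Fin.cons_succ]; exact hvη j
  set u : (M ≃ₐ[F] M) → Fin (s + 1) → ZMod (p ^ k) := fun t i => ph (p ^ k) ζ t (θ i) with hu
  set b : (M ≃ₐ[F] M) → ZMod (p ^ k) := fun t => ph (p ^ k) ζ t η0 with hb
  set c : (M ≃ₐ[F] M) → ℝ := fun t => wv v.1 p (t x0 - x0) with hc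
  have hc0 : ∀ t, 0 ≤ c t := by
    intro t
    rw [hc]
    simp only [wv]
    exact div_nonneg_of_nonpos (Real.log_nonpos (v.1.nonneg _)
      (hvint _ ((map_isIntegral_int (t : M →+* M) hx0.int).sub hx0.int))) hlog.le
  -- the products
  have hyl : ∀ lam : Fin (s + 1) → ZMod (p ^ k), Cl F (p ^ k) (∏ i, θ i ^ (lam i).val) ∧
      v.1 (∏ i, θ i ^ (lam i).val) = 1 ∧ ∀ t, ph (p ^ k) ζ t (∏ i, θ i ^ (lam i).val) =
        ∑ i, lam i * u t i := by
    intro lam
    refine ⟨Cl.prod _ _ fun i => (hClθ i).pow _, ?_, fun t => ?_⟩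
    · rw [map_prod]
      refine Finset.prod_eq_one fun i _ => ?_
      rw [map_pow, hvθ, one_pow]
    · rw [ph_prod hζ hN _ _ fun i => (hClθ i).pow _]
      refine Finset.sum_congr rfl fun i _ => ?_
      rw [ph_pow hζ hN (hClθ i), ZMod.natCast_zmod_val]
  -- the sums over the roots of unity
  have hval : ∀ l : ℕ, l ≤ k → ∑ b' ∈ univ.filter (fun b' : ZMod (p ^ k) => b' ≠ 0 ∧
      ((p ^ l : ℕ) : ZMod (p ^ k)) * b' = 0), wv v.1 p (ζ ^ b'.val - 1) = l := by
    intro l hl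
    rw [← hvsum k l ζ hl hζ]
    refine Finset.sum_bij (fun b' _ => b'.val) ?_ ?_ ?_ ?_
    · intro b' hb'
      simp only [Finset.mem_filter, Finset.mem_univ, true_and] at hb'
      rw [Finset.mem_filter, Finset.mem_range]
      refine ⟨ZMod.val_lt b', fun h => hb'.1 ((ZMod.val_eq_zero b').1 h), ?_⟩
      rw [← ZMod.natCast_eq_zero_iff, Nat.cast_mul, ZMod.natCast_zmod_val]
      exact hb'.2
    · intro a _ a' _ h
      exact ZMod.val_injective _ h
    · intro a ha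
      rw [Finset.mem_filter, Finset.mem_range] at ha
      refine ⟨(a : ZMod (p ^ k)), ?_, ZMod.val_cast_of_lt ha.1⟩
      simp only [Finset.mem_filter, Finset.mem_univ, true_and]
      refine ⟨fun h => ha.2.1 ?_, ?_⟩
      · rw [ZMod.natCast_eq_zero_iff] at h
        exact Nat.eq_zero_of_dvd_of_lt h ha.1
      · rw [← Nat.cast_mul, ZMod.natCast_eq_zero_iff]
        exact ha.2.2
    · intro _ _
      rfl
  have h1 : ∀ (lam : Fin (s + 1) → ZMod (p ^ k)) (l : ℕ), l ≤ k →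
      ∑ t ∈ univ.filter (fun t => ∑ i, lam i * u t i ≠ 0 ∧
        ((p ^ l : ℕ) : ZMod (p ^ k)) * ∑ i, lam i * u t i = 0), c t ≤ l := by
    intro lam l hl
    obtain ⟨hy, hvy, hph⟩ := hyl lam
    have h2 := class_bd hVB hCO hp v hv hx0 hζ hN hy hvy.le
      (univ.filter (fun b' : ZMod (p ^ k) => b' ≠ 0 ∧ ((p ^ l : ℕ) : ZMod (p ^ k)) * b' = 0))
      (by simp)
    have hw : wv v.1 p (∏ i, θ i ^ (lam i).val) = 0 := by
      unfold wv
      rw [hvy, Real.log_one, zero_div]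
    simp only [hw, zero_add] at h2
    rw [hval l hl] at h2
    refine le_trans (le_of_eq ?_) h2
    refine Finset.sum_congr ?_ fun _ _ => rfl
    ext t
    simp only [Finset.mem_filter, Finset.mem_univ, true_and, hph]
  have h2 : ∀ lam : Fin (s + 1) → ZMod (p ^ k),
      ∑ t ∈ univ.filter (fun t => ∑ i, lam i * u t i + b t ≠ 0), c t ≤
        k + (p : ℝ) ^ k * wv v.1 p η0 := by
    intro lam
    obtain ⟨hy, hvy, hph⟩ := hyl lam
    have hvy' : v.1 ((∏ i, θ i ^ (lam i).val) * η0) ≤ 1 := by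
      rw [map_mul, hvy, one_mul]
      exact hvη0
    have h3 := class_bd hVB hCO hp v hv hx0 hζ hN (hy.mul hClη0) hvy'
      (univ.filter (fun b' : ZMod (p ^ k) => b' ≠ 0 ∧ ((p ^ k : ℕ) : ZMod (p ^ k)) * b' = 0))
      (by simp)
    have hw : wv v.1 p ((∏ i, θ i ^ (lam i).val) * η0) = wv v.1 p η0 := by
      unfold wv
      rw [map_mul, hvy, one_mul]
    rw [Finset.sum_add_distrib, hval k le_rfl, Finset.sum_const, nsmul_eq_mul, hw] at h3
    have hw0 : 0 ≤ wv v.1 p η0 := by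
      unfold wv
      exact div_nonneg_of_nonpos (Real.log_nonpos (v.1.nonneg _) hvη0) hlog.le
    have hcard : (((univ.filter (fun b' : ZMod (p ^ k) => b' ≠ 0 ∧
        ((p ^ k : ℕ) : ZMod (p ^ k)) * b' = 0)).card : ℕ) : ℝ) ≤ (p : ℝ) ^ k := by
      have h4 := Finset.card_le_univ (univ.filter (fun b' : ZMod (p ^ k) => b' ≠ 0 ∧
        ((p ^ k : ℕ) : ZMod (p ^ k)) * b' = 0))
      rw [ZMod.card] at h4
      exact_mod_cast h4
    have h5 : ∑ t ∈ univ.filter (fun t => ∑ i, lam i * u t i + b t ≠ 0), c t =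
        ∑ t ∈ univ.filter (fun t : M ≃ₐ[F] M => ph (p ^ k) ζ t ((∏ i, θ i ^ (lam i).val) * η0) ∈
          (univ.filter (fun b' : ZMod (p ^ k) => b' ≠ 0 ∧
            ((p ^ k : ℕ) : ZMod (p ^ k)) * b' = 0))), wv v.1 p (t x0 - x0) := by
      refine Finset.sum_congr ?_ fun _ _ => rfl
      ext t
      simp only [Finset.mem_filter, Finset.mem_univ, true_and]
      rw [ph_mul hζ hN hy hClη0, hph, ZMod.natCast_self, zero_mul]
      simp only [and_true, hb]
    rw [h5]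
    refine h3.trans ?_
    have := mul_le_mul_of_nonneg_right hcard hw0
    linarith
  have h3 := hAV (M ≃ₐ[F] M) c hc0 p k (s + 1) hp u b ((p : ℝ) ^ k * wv v.1 p η0) h1 h2
  refine le_trans (le_of_eq ?_) h3
  refine Finset.sum_congr ?_ fun _ _ => rfl
  ext t
  simp only [Finset.mem_filter, Finset.mem_univ, true_and]
  have hbt : b t ≠ 0 ↔ t η0 ≠ η0 := not_congr (ph_zero hζ hN hClη0 t)
  have hut : u t ≠ 0 ↔ (t ζ ≠ ζ ∨ ∃ i, t (η i) ≠ η i) := by
    rw [Function.ne_iff]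
    constructor
    · rintro ⟨i, hi⟩
      have hi' : t (θ i) ≠ θ i := fun h => hi ((ph_zero hζ hN (hClθ i) t).2 h)
      revert hi'
      refine Fin.cases ?_ (fun j => ?_) i
      · rw [hθ, Fin.cons_zero]
        exact fun h => Or.inl h
      · rw [hθ, Fin.cons_succ]
        exact fun h => Or.inr ⟨j, h⟩
    · rintro (h | ⟨j, h⟩)
      · refine ⟨0, fun h0 => h ?_⟩
        have := (ph_zero hζ hN (hClθ 0) t).1 h0
        rwa [hθ, Fin.cons_zero] at this
      · refine ⟨j.succ, fun h0 => h ?_⟩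
        have := (ph_zero hζ hN (hClθ j.succ) t).1 h0
        rwa [hθ, Fin.cons_succ] at this
  rw [hut, hbt]
  tauto

end Pool.Agent.H31.RD.KM
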