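import Pool.Agent.H24.RD.Targets

/-! MS of the board rem_modules: lower bound of the cyclotomic mass. -/

set_option autoImplicit false

namespace Pool.Agent.H31.RD

open Pool.Agent.H24.RD NumberField Finset

open Classical in
theorem pf_MS : T_VB → T_TRC → T_MS := by
  intro hVB hTRC F _ _
  obtain ⟨D, hD, hT⟩ := hTRC F
  refine ⟨D + 1, ?_⟩
  intro M _ _ _ _ _ p hp v hv x0 hx0 n ζ hζ
  obtain ⟨-, hv0, hvint, hvm, -, -, -⟩ := hVB M p hp v hv
  have hlog : Real.log (v.1 (p : M)) < 0 := Real.log_neg hv0 hv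
  have hint : ∀ t : M ≃ₐ[F] M, IsIntegral ℤ (t x0 - x0) := fun t =>
    (map_isIntegral_int (t : M →+* M) hx0.int).sub hx0.int
  have hwv0 : ∀ x : M, IsIntegral ℤ x → 0 ≤ wv v.1 p x := by
    intro x hx
    unfold wv
    exact div_nonneg_of_nonpos (Real.log_nonpos (v.1.nonneg x) (hvint x hx)) hlog.le
  have hsum0 : 0 ≤ ∑ t ∈ univ.filter (fun t : M ≃ₐ[F] M => t ζ ≠ ζ), wv v.1 p (t x0 - x0) :=
    Finset.sum_nonneg fun t _ => hwv0 _ (hint t)
  rcases Nat.eq_zero_or_pos n with hn | hn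
  · subst hn
    push_cast
    have : (0 : ℝ) ≤ D := Nat.cast_nonneg _
    linarith
  obtain ⟨z, hz, hzeq⟩ := hT M p n hp ζ hζ hn x0 hx0.int
  have hfac : ∀ t ∈ univ.filter (fun t : M ≃ₐ[F] M => t ζ ≠ ζ), v.1 (x0 - t x0) ≠ 0 := by
    intro t ht h0
    have h1 : x0 - t x0 = 0 := (AbsoluteValue.eq_zero _).1 h0
    have h2 := hx0.sep t (sub_eq_zero.1 h1).symm
    rw [Finset.mem_filter] at ht
    apply ht.2
    rw [h2]
    rfl
  have hDM : (D : M) ≠ 0 := by exact_mod_cast hD.ne'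
  have hpM : (p : M) ≠ 0 := by exact_mod_cast hp.ne_zero
  have hveq := congrArg v.1 hzeq
  rw [map_mul, map_prod, map_mul, map_pow] at hveq
  have hprod : ∏ t ∈ univ.filter (fun t : M ≃ₐ[F] M => t ζ ≠ ζ), v.1 (x0 - t x0) ≠ 0 :=
    Finset.prod_ne_zero_iff.2 hfac
  have hvD : v.1 (D : M) ≠ 0 := (AbsoluteValue.ne_zero_iff _).2 hDM
  have hvz : v.1 z ≠ 0 := by
    intro h0
    rw [h0, mul_zero] at hveq
    exact (mul_ne_zero hvD hprod) hveq
  have hl := congrArg Real.log hveq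
  rw [Real.log_mul hvD hprod, Real.log_prod hfac,
    Real.log_mul (pow_ne_zero _ hv0.ne') hvz, Real.log_pow] at hl
  have hwz := hwv0 z hz
  -- the valuation of `D`
  obtain ⟨a, m, hm, hDam⟩ := Nat.exists_eq_pow_mul_and_not_dvd hD.ne' p hp.ne_one
  have haD : a ≤ D := by
    have h1 : a < p ^ a := Nat.lt_pow_self hp.one_lt
    have h2 : p ^ a ≤ D := by
      rw [hDam]
      refine Nat.le_mul_of_pos_right _ (Nat.pos_of_ne_zero ?_)
      rintro rfl
      exact hm (dvd_zero p)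
    omega
  have hlD : Real.log (v.1 (D : M)) = a * Real.log (v.1 (p : M)) := by
    have h1 : (D : M) = (p : M) ^ a * (m : M) := by
      rw [← Nat.cast_pow, ← Nat.cast_mul, ← hDam]
    rw [h1, map_mul, map_pow, hvm m hm, mul_one, Real.log_pow]
  have hS : ∑ t ∈ univ.filter (fun t : M ≃ₐ[F] M => t ζ ≠ ζ), wv v.1 p (t x0 - x0) =
      (∑ t ∈ univ.filter (fun t : M ≃ₐ[F] M => t ζ ≠ ζ), Real.log (v.1 (x0 - t x0))) /
        Real.log (v.1 (p : M)) := by
    rw [Finset.sum_div]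
    refine Finset.sum_congr rfl fun t _ => ?_
    unfold wv
    rw [AbsoluteValue.map_sub]
  rw [hS, le_div_iff_of_neg hlog]
  unfold wv at hwz
  have hwz' : Real.log (v.1 z) ≤ 0 := Real.log_nonpos (v.1.nonneg z) (hvint z hz)
  rw [hlD] at hl
  have haR : (a : ℝ) ≤ D := by exact_mod_cast haD
  have hn1 : ((n - 1 : ℕ) : ℝ) = n - 1 := by
    rw [Nat.cast_sub hn, Nat.cast_one]
  rw [hn1] at hl
  push_cast
  nlinarith

end Pool.Agent.H31.RD
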