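import Pool.Agent.H24.RD.Targets

/-! TRC of the board rem_modules: the product of the differences `x0 - t x0`, `t ζ ≠ ζ`. -/

set_option autoImplicit false

namespace Pool.Agent.H31.RD

open Pool.Agent.H24.RD NumberField Finset

open Classical in
theorem pf_TRC : T_TR → T_TRC := by
  intro hTR F _ _
  obtain ⟨D, hD, hTR'⟩ := hTR F
  refine ⟨D, hD, ?_⟩
  intro M _ _ _ _ _ p n hp ζ hζ hn x0 hx0
  set T : Finset (M ≃ₐ[F] M) := univ.filter (fun t : M ≃ₐ[F] M => t ζ ≠ ζ) with hT
  set E : IntermediateField F M := IntermediateField.adjoin F {ζ} with hE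
  have hζE : ζ ∈ E := IntermediateField.mem_adjoin_simple_self F ζ
  -- the polynomial
  have hint : ∀ t : M ≃ₐ[F] M, IsIntegral ℤ (t x0) := fun t =>
    map_isIntegral_int (t : M →+* M) hx0
  set a : (M ≃ₐ[F] M) → integralClosure ℤ M := fun t => ⟨t x0, hint t⟩ with ha
  set h' : Polynomial (integralClosure ℤ M) := ∏ t ∈ T, (Polynomial.X - Polynomial.C (a t)) with hh'
  set h : Polynomial M := ∏ t ∈ T, (Polynomial.X - Polynomial.C (t x0)) with hh
  have hmap : h'.map (algebraMap (integralClosure ℤ M) M) = h := by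
    rw [hh', hh, Polynomial.map_prod]
    refine Finset.prod_congr rfl fun t _ => ?_
    rw [Polynomial.map_sub, Polynomial.map_X, Polynomial.map_C]
    rfl
  have hcint : ∀ j, IsIntegral ℤ (h.coeff j) := by
    intro j
    rw [← hmap, Polynomial.coeff_map]
    exact (h'.coeff j).2
  have hms : ∀ s : M ≃ₐ[F] M, h.map (s : M →+* M) =
      ∏ t ∈ T, (Polynomial.X - Polynomial.C ((s * t) x0)) := by
    intro s
    rw [hh, Polynomial.map_prod]
    refine Finset.prod_congr rfl fun t _ => ?_
    rw [Polynomial.map_sub, Polynomial.map_X, Polynomial.map_C]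
    rfl
  have hfix : ∀ s : M ≃ₐ[F] M, s ζ = ζ → h.map (s : M →+* M) = h := by
    intro s hs
    rw [hms, hh]
    refine Finset.prod_bij (fun t _ => s * t) ?_ ?_ ?_ ?_
    · intro t ht
      rw [hT, Finset.mem_filter] at ht ⊢
      refine ⟨Finset.mem_univ _, fun h1 => ht.2 ?_⟩
      rw [AlgEquiv.mul_apply] at h1
      exact s.injective (h1.trans hs.symm)
    · intro t _ t' _ h1
      exact mul_left_cancel h1
    · intro t ht
      refine ⟨s⁻¹ * t, ?_, by group⟩
      rw [hT, Finset.mem_filter] at ht ⊢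
      refine ⟨Finset.mem_univ _, fun h1 => ht.2 ?_⟩
      rw [AlgEquiv.mul_apply] at h1
      have h2 := congrArg s h1
      rw [hs, ← AlgEquiv.mul_apply, mul_inv_cancel] at h2
      exact h2
    · intro t _
      rfl
  have hnot : ∀ s : M ≃ₐ[F] M, s ζ ≠ ζ → (h.map (s : M →+* M)).eval x0 = 0 := by
    intro s hs
    rw [hms, Polynomial.eval_prod]
    refine Finset.prod_eq_zero (i := s⁻¹) ?_ ?_
    · rw [hT, Finset.mem_filter]
      refine ⟨Finset.mem_univ _, fun h1 => hs ?_⟩
      have h2 := congrArg s h1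
      rw [← AlgEquiv.mul_apply, mul_inv_cancel] at h2
      exact h2.symm
    · rw [mul_inv_cancel]
      simp
  -- the coefficients lie in `E`
  have hcE : ∀ j, h.coeff j ∈ E := by
    intro j
    rw [← IsGalois.fixedField_fixingSubgroup E]
    intro ⟨s, hs⟩
    have hs1 : s ζ = ζ := by
      have := (IntermediateField.mem_fixingSubgroup_iff E s).1 hs
      exact this ζ hζE
    have h1 := congrArg (fun q => q.coeff j) (hfix s hs1)
    simp only [Polynomial.coeff_map] at h1
    exact h1
  -- the sum over the group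
  have hcard : (univ.filter (fun t : M ≃ₐ[F] M => t ζ = ζ)).card = Module.finrank E M := by
    rw [← IsGalois.card_fixingSubgroup_eq_finrank E, Nat.card_eq_fintype_card,
      Fintype.card_subtype]
    congr 1
    ext s
    simp only [Finset.mem_filter, Finset.mem_univ, true_and]
    constructor
    · intro hs
      rw [IntermediateField.mem_fixingSubgroup_iff]
      intro x hx
      have hle : E ≤ IntermediateField.fixedField (Subgroup.zpowers s) := by
        rw [hE, IntermediateField.adjoin_simple_le_iff]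
        intro ⟨g, hg⟩
        obtain ⟨k, rfl⟩ := Subgroup.mem_zpowers_iff.1 hg
        have hst : s ∈ MulAction.stabilizer (M ≃ₐ[F] M) ζ := hs
        exact (MulAction.stabilizer (M ≃ₐ[F] M) ζ).zpow_mem hst k
      exact hle hx ⟨s, Subgroup.mem_zpowers s⟩
    · intro hs
      exact (IntermediateField.mem_fixingSubgroup_iff E s).1 hs ζ hζE
  have hsum : (Module.finrank E M : M) * h.eval x0 =
      ∑ j ∈ range (h.natDegree + 1), algebraMap F M (Algebra.trace F M (h.coeff j)) * x0 ^ j := by
    have e1 : ∑ s : M ≃ₐ[F] M, (h.map (s : M →+* M)).eval x0 =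
        (Module.finrank E M : M) * h.eval x0 := by
      rw [← hcard, ← nsmul_eq_mul, ← Finset.sum_const]
      rw [← Finset.sum_filter_add_sum_filter_not univ (fun s : M ≃ₐ[F] M => s ζ = ζ)]
      rw [Finset.sum_eq_zero (s := univ.filter (fun s : M ≃ₐ[F] M => ¬ s ζ = ζ))
        (fun s hs => hnot s (Finset.mem_filter.1 hs).2), add_zero]
      refine Finset.sum_congr rfl fun s hs => ?_
      rw [hfix s (Finset.mem_filter.1 hs).2]
    rw [← e1]
    have e2 : ∀ s : M ≃ₐ[F] M, (h.map (s : M →+* M)).eval x0 =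
        ∑ j ∈ range (h.natDegree + 1), s (h.coeff j) * x0 ^ j := by
      intro s
      rw [Polynomial.eval_map, Polynomial.eval₂_eq_sum_range]
      rfl
    rw [Finset.sum_congr rfl fun s _ => e2 s, Finset.sum_comm]
    refine Finset.sum_congr rfl fun j _ => ?_
    rw [← Finset.sum_mul, trace_eq_sum_automorphisms]
  have hfin : (Module.finrank E M : M) ≠ 0 := by
    have : 0 < Module.finrank E M := Module.finrank_pos
    exact_mod_cast this.ne'
  have htr : ∀ j, Algebra.trace F M (h.coeff j) =
      (Module.finrank E M : F) * Algebra.trace F E ⟨h.coeff j, hcE j⟩ := by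
    intro j
    have e3 : (h.coeff j : M) = algebraMap E M ⟨h.coeff j, hcE j⟩ := rfl
    conv_lhs => rw [e3, ← Algebra.trace_trace (S := E), Algebra.trace_algebraMap]
    rw [map_nsmul, nsmul_eq_mul]
  have hval : h.eval x0 = ∑ j ∈ range (h.natDegree + 1),
      algebraMap F M (Algebra.trace F E ⟨h.coeff j, hcE j⟩) * x0 ^ j := by
    apply mul_left_cancel₀ hfin
    rw [hsum, Finset.mul_sum]
    refine Finset.sum_congr rfl fun j _ => ?_
    rw [htr, map_mul, map_natCast]
    ring
  -- integrality
  have hζ' : IsPrimitiveRoot (⟨ζ, hζE⟩ : E) (p ^ n) := by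
    refine IsPrimitiveRoot.of_map_of_injective (f := algebraMap E M) ?_ (algebraMap E M).injective
    exact hζ
  have hcI : ∀ j, IsIntegral ℤ (⟨h.coeff j, hcE j⟩ : E) := by
    intro j
    have := hcint j
    exact (isIntegral_algHom_iff ((algebraMap E M).toIntAlgHom) (algebraMap E M).injective).1 this
  choose z hzI hz using fun j => hTR' E p n hp ⟨ζ, hζE⟩ hζ' hn ⟨h.coeff j, hcE j⟩ (hcI j)
  refine ⟨∑ j ∈ range (h.natDegree + 1), algebraMap F M (z j) * x0 ^ j, ?_, ?_⟩
  · refine IsIntegral.sum _ fun j _ => ?_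
    exact (map_isIntegral_int (algebraMap F M) (hzI j)).mul (hx0.pow j)
  · have e4 : ∏ t ∈ T, (x0 - t x0) = h.eval x0 := by
      rw [hh, Polynomial.eval_prod]
      refine Finset.prod_congr rfl fun t _ => ?_
      simp
    rw [e4, hval, Finset.mul_sum, Finset.mul_sum]
    refine Finset.sum_congr rfl fun j _ => ?_
    have e5 := congrArg (algebraMap F M) (hz j)
    rw [map_mul, map_mul, map_natCast, map_pow, map_natCast] at e5
    rw [← mul_assoc, e5, mul_assoc]

end Pool.Agent.H31.RD
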